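import Pool.Agent.LE.StmtsZ
import Pool.Agent.Helper28_LEW.SGE
import Pool.Agent.Helper54_LE.LYA

/-!
# CDP: conduction in a large cube, with probability
-/

set_option autoImplicit false
set_option linter.unusedSectionVars false

open scoped Topology ENNReal NNReal BigOperators
open MeasureTheory Filter ProbabilityTheory

noncomputable section

namespace Pool.Agent.LE.H42Z

open Matrix Pool.Agent.Anderson Pool.Agent.Loc Pool.Agent.Mob Pool.Agent.Helper54.Bal
  Pool.Agent.BED Pool.Agent.LE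

variable {d : ℕ}

/-- geometric resolvent identity, both sites in the smaller set -/
theorem geo0 {V : Site d → ℝ} {Λ A : Finset (Site d)} {E : ℝ} (hA : A ⊆ Λ)
    (h : (RM V Λ E).det ≠ 0) (hA' : (RM V A E).det ≠ 0) {x y : Site d} (hx : x ∈ A)
    (hy : y ∈ A) :
    gr V Λ E x y = gr V A E x y +
      ∑ u ∈ A, ∑ u' ∈ Λ \ A, gr V A E x u * hop u u' * gr V Λ E u' y := by
  have e1 : ∀ u ∈ A, ∑ z ∈ A, rm V E u z * gr V Λ E z y =
      (if u = y then 1 else 0) + ∑ u' ∈ Λ \ A, hop u u' * gr V Λ E u' y := by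
    intro u hu
    have h1 := rm_mul_gr h (hA hu) (hA hy)
    rw [← Finset.sum_sdiff hA] at h1
    have h2 : ∑ z ∈ Λ \ A, rm V E u z * gr V Λ E z y =
        - ∑ u' ∈ Λ \ A, hop u u' * gr V Λ E u' y := by
      rw [← Finset.sum_neg_distrib]
      apply Finset.sum_congr rfl
      intro z hz
      have huz : u ≠ z := by
        rintro rfl
        exact (Finset.mem_sdiff.1 hz).2 hu
      unfold rm
      rw [if_neg huz]
      ring
    rw [h2] at h1
    linarith only [h1]
  have e2 : ∑ u ∈ A, gr V A E x u * ∑ z ∈ A, rm V E u z * gr V Λ E z y = gr V Λ E x y := by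
    simp_rw [Finset.mul_sum]
    rw [Finset.sum_comm]
    have : ∀ z ∈ A, ∑ u ∈ A, gr V A E x u * (rm V E u z * gr V Λ E z y) =
        (if x = z then 1 else 0) * gr V Λ E z y := by
      intro z hz
      rw [← gr_mul_rm hA' hx hz, Finset.sum_mul]
      apply Finset.sum_congr rfl
      intro u _
      ring
    rw [Finset.sum_congr rfl this]
    simp [hx]
  rw [← e2]
  have e3 : ∀ u ∈ A, gr V A E x u * ∑ z ∈ A, rm V E u z * gr V Λ E z y =
      (if u = y then gr V A E x u else 0) +
        ∑ u' ∈ Λ \ A, gr V A E x u * hop u u' * gr V Λ E u' y := by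
    intro u hu
    rw [e1 u hu, mul_add, Finset.mul_sum]
    congr 1
    · split_ifs <;> simp
    · refine Finset.sum_congr rfl fun u' _ => by ring
  rw [Finset.sum_congr rfl e3, Finset.sum_add_distrib, Finset.sum_ite_eq', if_pos hy]

/-- the boundary term -/
theorem bdry_le {V : Site d → ℝ} {Λ : Finset (Site d)} {E T1 T2 : ℝ} {b y : Site d} {r : ℕ}
    (hT1 : 0 ≤ T1) (hT2 : 0 ≤ T2)
    (h1 : ∀ u, sd b u = r → |gr V (box b r) E b u| ≤ T1)
    (h2 : ∀ u ∈ box b (r + 1), |gr V Λ E u y| ≤ T2) :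
    |∑ u ∈ box b r, ∑ u' ∈ Λ \ box b r, gr V (box b r) E b u * hop u u' * gr V Λ E u' y| ≤
      (box b r).card * (2 * d * (T1 * T2)) := by
  refine (Finset.abs_sum_le_sum_abs _ _).trans ?_
  rw [← nsmul_eq_mul]
  refine Finset.sum_le_card_nsmul _ _ _ fun u hu => ?_
  refine (Finset.abs_sum_le_sum_abs _ _).trans ?_
  have h3 : ∀ u' ∈ Λ \ box b r, |gr V (box b r) E b u * hop u u' * gr V Λ E u' y| ≤
      hop u u' * (T1 * T2) := by
    intro u' hu'
    rw [abs_mul, abs_mul, abs_of_nonneg (hop_nonneg u u')]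
    by_cases hh : hop u u' = 0
    · rw [hh, mul_zero, zero_mul, zero_mul]
    · have hsd := sd_of_hop hh
      have hu1 := sd_le_iff.1 (mem_box.1 hu)
      have hu2 : ¬ sd b u' ≤ r := fun hc => (Finset.mem_sdiff.1 hu').2 (mem_box.2 hc)
      have hu3 : sd b u' ≤ r + 1 := by
        rw [sd_le_iff]
        intro i
        have a1 := hu1 i
        have a2 := sd_le_iff.1 hsd i
        have a3 : |b i - u' i| ≤ |b i - u i| + |u i - u' i| := abs_sub_le _ _ _
        push_cast at a2 ⊢
        linarith only [a2, a3, a1]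
      have hu4 : sd b u = r := by
        apply le_antisymm (mem_box.1 hu)
        by_contra hc
        apply hu2
        have hc' : sd b u ≤ r - 1 := by omega
        have hr : 1 ≤ r := by omega
        rw [sd_le_iff]
        intro i
        have a1 := sd_le_iff.1 hc' i
        have a2 := sd_le_iff.1 hsd i
        have a3 : |b i - u' i| ≤ |b i - u i| + |u i - u' i| := abs_sub_le _ _ _
        have a4 : ((r - 1 : ℕ) : ℤ) = r - 1 := by
          rw [Nat.cast_sub hr]
          rfl
        rw [a4] at a1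
        push_cast at a2
        linarith only [a2, a3, a1]
      have g1 := h1 u hu4
      have g2 := h2 u' (mem_box.2 hu3)
      calc |gr V (box b r) E b u| * hop u u' * |gr V Λ E u' y|
          ≤ T1 * hop u u' * T2 := by
            gcongr
            · exact mul_nonneg hT1 (hop_nonneg u u')
            · exact hop_nonneg u u'
        _ = _ := by ring
  refine (Finset.sum_le_sum h3).trans ?_
  rw [← Finset.sum_mul]
  exact mul_le_mul_of_nonneg_right (sum_hop_le u _) (mul_nonneg hT1 hT2)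

theorem qform_shift (V : Site d → ℝ) (b : Site d) (r : ℕ) (E : ℝ) (u : Site d → ℝ) :
    qform V (box b r) E u = qform (fun y => V (b + y)) (box 0 r) E (fun y => u (b + y)) := by
  have hmem : ∀ y : Site d, y ∈ box 0 r ↔ b + y ∈ box b r := by
    intro y
    rw [mem_box, mem_box, sd_le_iff, sd_le_iff]
    refine forall_congr' fun i => ?_
    rw [Pi.add_apply, Pi.zero_apply, sub_add_cancel_left, zero_sub]
  have hhop : ∀ y z : Site d, hop (b + y) (b + z) = hop y z := by
    intro y z
    unfold hop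
    refine Finset.sum_congr rfl fun i _ => ?_
    have h1 : (b + z = b + y + Pi.single i 1) ↔ (z = y + Pi.single i 1) := by
      rw [add_assoc, add_right_inj]
    have h2 : (b + z = b + y - Pi.single i 1) ↔ (z = y - Pi.single i 1) := by
      rw [add_sub_assoc, add_right_inj]
    simp only [h1, h2]
  have hsum : ∀ f : Site d → ℝ, ∑ y ∈ box b r, f y = ∑ y ∈ box (0 : Site d) r, f (b + y) := by
    intro f
    refine (Finset.sum_bij (fun y _ => b + y) (fun y hy => (hmem y).1 hy)
      (fun y _ z _ h => add_left_cancel h) (fun y hy => ⟨y - b, ?_, ?_⟩) (fun y _ => rfl)).symm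
    · rw [hmem, add_sub_cancel]
      exact hy
    · rw [add_sub_cancel]
  unfold qform
  rw [hsum]
  refine Finset.sum_congr rfl fun y _ => ?_
  rw [hsum]
  refine Finset.sum_congr rfl fun z _ => ?_
  unfold rm
  rw [hhop]
  by_cases h : y = z
  · subst h
    simp
  · have h' : b + y ≠ b + z := fun hc => h (add_left_cancel hc)
    rw [if_neg h, if_neg h']

theorem cosh_bound {κ : ℝ} (h : κ ^ 2 ≤ 1) : 2 * (Real.cosh κ - 1) ≤ 2 * κ ^ 2 := by
  have h1 := Real.cosh_le_exp_half_sq κ
  have h2 : 1 - κ ^ 2 / 2 ≤ Real.exp (-(κ ^ 2 / 2)) := by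
    have := Real.add_one_le_exp (-(κ ^ 2 / 2))
    linarith only [this]
  have h3 : Real.exp (κ ^ 2 / 2) * Real.exp (-(κ ^ 2 / 2)) = 1 := by
    rw [← Real.exp_add]
    simp
  have h4 : 0 < Real.exp (κ ^ 2 / 2) := Real.exp_pos _
  have h5 : Real.exp (κ ^ 2 / 2) * (1 - κ ^ 2 / 2) ≤ 1 :=
    (mul_le_mul_of_nonneg_left h2 h4.le).trans h3.le
  have h6 : Real.exp (κ ^ 2 / 2) ≤ 1 + κ ^ 2 := by
    have h7 : 0 ≤ κ ^ 2 := sq_nonneg κ
    by_contra hc
    push Not at hc
    have h8 : (1 + κ ^ 2) * (1 - κ ^ 2 / 2) ≤ Real.exp (κ ^ 2 / 2) * (1 - κ ^ 2 / 2) :=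
      mul_le_mul_of_nonneg_right hc.le (by linarith only [h])
    have h9 : 1 < (1 + κ ^ 2) * (1 - κ ^ 2 / 2) ∨ κ ^ 2 = 0 := by
      rcases h7.lt_or_eq with h | h
      · left
        nlinarith
      · right
        exact h.symm
    rcases h9 with h9 | h9
    · linarith only [h9, h8, h5]
    · rw [h9] at hc
      simp at hc
  linarith only [h6, h1]

/-- deterministic part -/
theorem cdp_det {C₁ C₂ : ℝ} {ε : ℝ} (hd : 1 ≤ d)
    (cts : CtsStmt) (hε : 0 < ε) (hε50 : ε ≤ 1 / 50) (hCε : C₁ * ε ≤ 1)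
    {M' n R N : ℕ} [NeZero M'] {z μ lam : ℝ} {V : Site d → ℝ} {b : Site d} {i : Fin d}
    (cde : Real.exp (-((1 + C₁ * ε) * Real.sqrt lam * n + C₂ * (1 + Real.log (1 / lam)))) ≤
        gr V (box b (n + R)) (z + lam) b (b + Pi.single i (n : ℤ)))
    (hlam : 0 < lam) (hlam2 : lam ≤ 1 / 2) (hμ : 0 < μ)
    (hM : 2 * (n + R) + 5 ≤ M') (hnR : 8 * n ≤ R) (hR : 1 ≤ R) (hbox : box b (n + R + 1) ⊆ box 0 N)
    (hF : FlatE ε z μ (fun x : Tor d M' => V (b + rep x)))
    (hdet : (RM V (box 0 N) (z + lam)).det ≠ 0)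
    (hw : ∀ u ∈ box b (n + R + 1), |gr V (box 0 N) (z + lam) u (b + Pi.single i (n : ℤ))| ≤
      Real.exp (Real.sqrt lam * R / 8))
    (hlog : Real.log (8 * d) + d * Real.log (6 * R) + Real.log (1 / lam) +
      C₂ * (1 + Real.log (1 / lam)) ≤ Real.sqrt lam * R / 8) :
    DL (box 0 N) (z + lam) V b (b + Pi.single i (n : ℤ)) ≤
        (1 + C₁ * ε) * Real.sqrt lam * n + (C₂ + 1) * (1 + Real.log (1 / lam)) := by
  set s : ℝ := Real.sqrt lam with hs
  have hs0 : 0 < s := Real.sqrt_pos.2 hlam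
  have hs2 : s ^ 2 = lam := Real.sq_sqrt hlam.le
  have hd1 : (1 : ℝ) ≤ d := by exact_mod_cast hd
  have hR1 : (1 : ℝ) ≤ R := by exact_mod_cast hR
  have hn0 : (0 : ℝ) ≤ n := Nat.cast_nonneg n
  have hnR' : 8 * (n : ℝ) ≤ R := by exact_mod_cast hnR
  have hL0 : 0 ≤ Real.log (1 / lam) := by
    apply Real.log_nonneg
    rw [le_div_iff₀ hlam, one_mul]
    linarith only [hlam2]
  set Λ := box (0 : Site d) N with hΛ
  set r := n + R with hr
  set B := box b r with hB
  set x := b + Pi.single i (n : ℤ) with hx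
  set E := z + lam with hE
  have hBΛ : B ⊆ Λ := by
    refine Finset.Subset.trans ?_ hbox
    intro y hy
    rw [hB, mem_box] at hy
    rw [mem_box]
    omega
  -- form bound
  have hflat : Flat z μ (fun x : Tor d M' => V (b + rep x)) := by
    refine ⟨hF.1, hF.2.1, fun x => (hF.2.2 x).trans ?_⟩
    have : ε * μ ≤ 1 / 50 * μ := mul_le_mul_of_nonneg_right hε50 hμ.le
    linarith only [this]
  have hbd : ∀ y ∈ box (0 : Site d) r, ∀ j, 2 * (|y j| + 1) < (M' : ℤ) := by
    intro y hy j
    have h1 := sd_le_iff.1 (mem_box.1 hy) j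
    rw [Pi.zero_apply, zero_sub, abs_neg] at h1
    have h5 : (2 * ((n : ℤ) + R) + 5) ≤ M' := by exact_mod_cast hM
    rw [hr] at h1
    push_cast at h1
    linarith only [h1, hr, hM]
  have hform : ∀ u : Site d → ℝ, lam * ∑ y ∈ B, u y ^ 2 ≤ qform V B E u := by
    intro u
    have h1 := H28W.qform_flat (W := fun y => V (b + y)) (box 0 r) hbd hflat
      (fun y => u (b + y))
    rw [← qform_shift V b r z u] at h1
    rw [qform_eq] at h1 ⊢
    rw [hE]
    rw [← hB] at h1
    linarith only [h1]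
  -- Combes-Thomas
  have hκ : (s / 2) ^ 2 ≤ 1 := by
    rw [div_pow, hs2]
    linarith only [hlam2]
  obtain ⟨hdetB, hct⟩ := cts d V B E lam (s / 2) (lam / 2) hd (by positivity) (by positivity)
    (by
      have := cosh_bound hκ
      rw [div_pow, hs2] at this
      linarith only [this]) hform
  have hxB : x ∈ B := by
    rw [hB, mem_box, hx, sd_le_iff]
    intro j
    rw [Pi.add_apply, sub_add_cancel_left, abs_neg]
    by_cases hj : j = i
    · subst hj
      rw [Pi.single_eq_same, abs_of_nonneg (by positivity)]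
      rw [hr]
      push_cast
      linarith only [(Nat.cast_nonneg R : (0 : ℤ) ≤ R)]
    · rw [Pi.single_eq_of_ne hj, abs_zero]
      positivity
  have hbB : b ∈ B := by
    rw [hB, mem_box, sd_le_iff]
    intro j
    rw [sub_self, abs_zero]
    positivity
  have hid := geo0 hBΛ hdet hdetB hbB hxB
  have hT1 : ∀ u, sd b u = r → |gr V B E b u| ≤ 2 / lam * Real.exp (-(s * R / 2)) := by
    intro u hu
    refine (hct b u).trans ?_
    rw [hu]
    have h1 : 1 / (lam / 2) = 2 / lam := by
      field_simp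
    rw [h1]
    apply mul_le_mul_of_nonneg_left _ (by positivity)
    apply Real.exp_le_exp.2
    rw [hr]
    push_cast
    nlinarith only [mul_nonneg hs0.le hn0]
  have hbdry := bdry_le (V := V) (Λ := Λ) (E := E) (b := b) (y := x) (r := r)
    (T1 := 2 / lam * Real.exp (-(s * R / 2))) (T2 := Real.exp (s * R / 8)) (by positivity)
    (by positivity) hT1 hw
  rw [← hB] at hbdry
  set S : ℝ := ∑ u ∈ B, ∑ u' ∈ Λ \ B, gr V B E b u * hop u u' * gr V Λ E u' x with hS
  have hcard : ((B.card : ℕ) : ℝ) ≤ (6 * R : ℝ) ^ d := by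
    rw [hB, card_box]
    push_cast
    apply pow_le_pow_left₀ (by positivity)
    rw [hr]
    push_cast
    linarith only [hnR', hR1]
  set X : ℝ := (1 + C₁ * ε) * s * n + C₂ * (1 + Real.log (1 / lam)) with hX
  have hXle : X ≤ s * R / 4 + C₂ * (1 + Real.log (1 / lam)) := by
    rw [hX]
    have h1 : (1 + C₁ * ε) * s * n ≤ 2 * s * n := by
      have : 1 + C₁ * ε ≤ 2 := by linarith only [hCε]
      gcongr
    have h2 : 2 * s * n ≤ s * R / 4 := by nlinarith only [hnR', hs0]
    linarith only [h2, h1]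
  have hSle : |S| ≤ Real.exp (-X) / 2 := by
    refine hbdry.trans ?_
    have e1 : (8 * d : ℝ) * (6 * R) ^ d * (1 / lam) ≤
        Real.exp (s * R / 8 - C₂ * (1 + Real.log (1 / lam))) := by
      have hpos : (0 : ℝ) < 8 * d * (6 * R) ^ d * (1 / lam) := by positivity
      rw [← Real.log_le_iff_le_exp hpos, Real.log_mul (by positivity) (by positivity),
        Real.log_mul (by positivity) (by positivity), Real.log_pow]
      linarith only [hlog]
    have e2 : (B.card : ℝ) * (2 * d * (2 / lam * Real.exp (-(s * R / 2)) * Real.exp (s * R / 8))) ≤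
        (6 * R) ^ d * (2 * d * (2 / lam * Real.exp (-(s * R / 2)) * Real.exp (s * R / 8))) :=
      mul_le_mul_of_nonneg_right hcard (by positivity)
    refine e2.trans ?_
    have e3 : (6 * R : ℝ) ^ d * (2 * d * (2 / lam * Real.exp (-(s * R / 2)) *
        Real.exp (s * R / 8))) = ((8 * d : ℝ) * (6 * R) ^ d * (1 / lam)) *
          (Real.exp (-(s * R / 2)) * Real.exp (s * R / 8)) / 2 := by
      ring
    rw [e3, ← Real.exp_add]
    have e4 : ((8 * d : ℝ) * (6 * R) ^ d * (1 / lam)) * Real.exp (-(s * R / 2) + s * R / 8) ≤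
        Real.exp (s * R / 8 - C₂ * (1 + Real.log (1 / lam))) *
          Real.exp (-(s * R / 2) + s * R / 8) :=
      mul_le_mul_of_nonneg_right e1 (Real.exp_pos _).le
    rw [← Real.exp_add] at e4
    have e5 : Real.exp (s * R / 8 - C₂ * (1 + Real.log (1 / lam)) +
        (-(s * R / 2) + s * R / 8)) ≤ Real.exp (-X) := by
      apply Real.exp_le_exp.2
      linarith only [hXle]
    linarith only [e5, e4]
  have hG : Real.exp (-X) / 2 ≤ gr V Λ E b x := by
    rw [hid]
    have h1 := neg_abs_le S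
    have h2 : Real.exp (-X) ≤ gr V B E b x := cde
    linarith only [h1, hSle, cde]
  have hG0 : 0 < gr V Λ E b x := lt_of_lt_of_le (by positivity) hG
  unfold DL
  rw [abs_of_pos hG0]
  have h1 := Real.log_le_log (by positivity) hG
  rw [Real.log_div (Real.exp_pos _).ne' (by norm_num), Real.log_exp] at h1
  have h2 : Real.log 2 ≤ 1 := by
    have := Real.log_two_lt_d9
    linarith only [this]
  have h3 : (C₂ + 1) * (1 + Real.log (1 / lam)) =
      C₂ * (1 + Real.log (1 / lam)) + (1 + Real.log (1 / lam)) := by ring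
  rw [h3]
  linarith only [h2, h1, hL0]

/-- the probability of the failure of flatness is positive -/
theorem gau_bad_pos {M' : ℕ} [NeZero M'] {v : ℝ≥0} (hv : v ≠ 0) {ε z μ : ℝ} :
    gau d M' v {V | ¬ FlatE ε z μ V} ≠ 0 := by
  intro h0
  set x₀ : Tor d M' := fun _ => 0 with hx₀
  have h1 : {V : Tor d M' → ℝ | V x₀ ∈ Set.Iio (-1 : ℝ)} ⊆ {V | ¬ FlatE ε z μ V} := by
    intro V hV hc
    have := hc.1 x₀
    rw [Set.mem_ofPred_eq, Set.mem_Iio] at hV
    linarith only [this, hV]
  have h2 := measure_mono_null h1 h0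
  have h3 : MeasurePreserving (fun V : Tor d M' → ℝ => V x₀) (gau d M' v) (gaussianReal 0 v) := by
    unfold gau
    exact measurePreserving_eval (fun _ => gaussianReal 0 v) x₀
  have h4 : gaussianReal 0 v (Set.Iio (-1)) = 0 := by
    rw [← h3.measure_preimage measurableSet_Iio.nullMeasurableSet]
    exact h2
  have h5 := gaussianReal_absolutelyContinuous' 0 hv h4
  rw [Real.volume_Iio] at h5
  exact absurd h5 (by simp)

theorem cdp (cde : CdeStmt) (cts : CtsStmt) : CdpStmt := by
  intro d hd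
  obtain ⟨C₁, hC1, hcde⟩ := cde d hd
  refine ⟨C₁, hC1, ?_⟩
  intro ε hε hε50 hCε
  obtain ⟨Ce, hCe, hcde'⟩ := hcde ε hε hε50
  refine ⟨88 * d + 48 + 8 * Ce, ?_, ?_⟩
  · have : (0 : ℝ) ≤ d := Nat.cast_nonneg d
    linarith only [hCe]
  intro M' n R N v σ z μ lam p b i hσ hσ1 hv hz hlam hlam2 hμ hεμ hprob hM hnR hbox hC
  classical
  have hne : NeZero M' := ⟨by omega⟩
  have hs0 : 0 < |σ| := abs_pos.2 hσ
  have hd1 : (1 : ℝ) ≤ d := by exact_mod_cast hd
  have hsq : 0 < Real.sqrt lam := Real.sqrt_pos.2 hlam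
  have hl1 : 0 ≤ Real.log (1 / lam) := by
    apply Real.log_nonneg
    rw [le_div_iff₀ hlam, one_mul]
    linarith only [hlam2]
  have hl2 : 0 ≤ Real.log (1 / |σ|) := by
    apply Real.log_nonneg
    rw [le_div_iff₀ hs0, one_mul]
    exact hσ1
  have hl3 : 0 ≤ Real.log (R : ℝ) := Real.log_natCast_nonneg R
  set L : ℝ := 1 + Real.log (1 / lam) + Real.log (1 / |σ|) + Real.log R with hL
  have hL1 : 1 ≤ L := by rw [hL]; linarith only [hl3, hl2, hl1]
  have hCpos : 0 < 88 * (d : ℝ) + 48 + 8 * Ce := by linarith only [hCe]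
  have hCL : 0 < (88 * (d : ℝ) + 48 + 8 * Ce) * L := by positivity
  have hsR : 0 < Real.sqrt lam * R := lt_of_lt_of_le hCL hC
  have hR0 : (0 : ℝ) < R := by
    by_contra hc
    have : (R : ℝ) = 0 := le_antisymm (not_lt.1 hc) (Nat.cast_nonneg R)
    rw [this, mul_zero] at hsR
    exact lt_irrefl _ hsR
  have hR : 1 ≤ R := by
    have : 0 < R := by exact_mod_cast hR0
    omega
  have hR1 : (1 : ℝ) ≤ R := by exact_mod_cast hR
  have hnR' : 8 * (n : ℝ) ≤ R := by exact_mod_cast hnR
  have hlog6 : Real.log (6 * R) ≤ 2 + Real.log R := by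
    rw [Real.log_mul (by norm_num) (by positivity)]
    have h6 : Real.log 6 ≤ 2 := by
      rw [Real.log_le_iff_le_exp (by norm_num)]
      have h1 := Real.exp_one_gt_d9
      have h2 : Real.exp 2 = Real.exp 1 * Real.exp 1 := by
        rw [← Real.exp_add]
        norm_num
      rw [h2]
      nlinarith only [h1]
    linarith only [h6]
  have hdR : (d : ℝ) * Real.log (6 * R) ≤ d * (2 + Real.log R) :=
    mul_le_mul_of_nonneg_left hlog6 (by positivity)
  have hs : (88 * (d : ℝ) + 48 + 8 * Ce) * L ≤ Real.sqrt lam * R := hC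
  have hdL : (d : ℝ) * (2 + Real.log R) ≤ 3 * d * L := by
    have : 2 + Real.log R ≤ 3 * L := by rw [hL]; linarith only [hl3, hl2, hl1]
    calc (d : ℝ) * (2 + Real.log R) ≤ d * (3 * L) := mul_le_mul_of_nonneg_left this (by positivity)
      _ = _ := by ring
  -- p is positive
  have hv0 : v ≠ 0 := by
    intro h
    rw [h] at hv
    have : 0 < σ ^ 2 := by positivity
    rw [← hv] at this
    simp at this
  have hp : 0 < p := by
    have h1 := hprob hne
    have h2 : gau d M' v {V | ¬ FlatE ε z μ V} ≠ 0 := gau_bad_pos hv0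
    rw [← ENNReal.ofReal_pos]
    exact lt_of_lt_of_le (pos_iff_ne_zero.2 h2) h1
  -- the events
  set f : (Site d → ℝ) → (Tor d M' → ℝ) := fun V x => V (b + rep x) with hf
  set B1 : Set (Site d → ℝ) := f ⁻¹' {U | ¬ FlatE ε z μ U} with hB1
  have pB1 : PP d (gl σ) B1 ≤ ENNReal.ofReal p := by
    have hfm : Measurable f := measurable_pi_lambda _ fun x => measurable_pi_apply _
    refine (Measure.le_map_apply hfm.aemeasurable _).trans ?_
    have h4 := H73.lawT d M' (Site d → ℝ) (PP d (gl σ)) (H54W.xi σ b) (H54W.measurable_xi σ b)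
      (H54W.map_xi hσ b) (H54W.indep_xi b) σ v hv
    have h5 : (fun (V : Site d → ℝ) (x : Tor d M') => σ * H54W.xi σ b (rep x) V) = f := by
      funext V x
      simp only [H54W.xi, hf]
      field_simp
    rw [h5] at h4
    rw [h4]
    exact hprob hne
  set x : Site d := b + Pi.single i (n : ℤ) with hx
  set E := z + lam with hE
  have hν := bddDens_gl hσ
  have pB2 : PP d (gl σ) {V | (RM V (box (0 : Site d) N) E).det = 0} = 0 := H54.PP_det hν _ E
  set T : ℝ := Real.exp (Real.sqrt lam * R / 8) with hT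
  have hT0 : 0 < T := Real.exp_pos _
  have pB3 : ∀ u ∈ box b (n + R + 1), PP d (gl σ) {V | T < |gr V (box (0 : Site d) N) E u x|} ≤
      ENNReal.ofReal (6 * (1 / |σ|) / T) := fun u _ => H54.PP_weak hν _ E u x hT0
  have hsub : {V | ¬ DL (box 0 N) E V b x ≤ (1 + C₁ * ε) * Real.sqrt lam * n +
      (88 * (d : ℝ) + 48 + 8 * Ce) * (1 + Real.log (1 / lam))} ⊆
      (B1 ∪ {V | (RM V (box (0 : Site d) N) E).det = 0}) ∪
        ⋃ u ∈ box b (n + R + 1), {V | T < |gr V (box (0 : Site d) N) E u x|} := by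
    intro V hV
    by_contra hc
    simp only [Set.mem_union, Set.mem_iUnion, not_or, not_exists, Set.mem_ofPred_eq] at hc
    obtain ⟨⟨c1, c2⟩, c3⟩ := hc
    rw [hB1, Set.mem_preimage, Set.mem_ofPred_eq, not_not] at c1
    apply hV
    have hCeR : Ce / Real.sqrt lam ≤ R := by
      rw [div_le_iff₀ hsq]
      have h1 : Ce ≤ (88 * (d : ℝ) + 48 + 8 * Ce) * L := by nlinarith only [hl3, hl2, hl1, hCe]
      linarith only [h1, hC]
    have h1 := hcde' M' z μ lam V b n R i hz hlam hlam2 hμ hεμ hM c1 hCeR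
    have h2 := cdp_det (C₁ := C₁) (C₂ := Ce) (ε := ε) hd cts hε hε50 hCε
      (M' := M') (n := n) (R := R) (N := N) (z := z) (μ := μ) (lam := lam) (V := V) (b := b)
      (i := i) h1 hlam hlam2 hμ hM hnR hR hbox c1 c2
      (fun u hu => not_lt.1 (c3 u hu)) (by
        have a1 : Real.log (8 * d) ≤ 8 * d := by
          have := Real.log_le_sub_one_of_pos (show (0 : ℝ) < 8 * d by positivity)
          linarith only [this]
        have a2 : (8 * (d : ℝ)) ≤ 8 * d * L := by nlinarith only [hl3, hl2, hl1]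
        have a3 : Real.log (1 / lam) ≤ L := by rw [hL]; linarith only [hl3, hl2]
        have a4 : 1 + Real.log (1 / lam) ≤ L := by rw [hL]; linarith only [hl3, hl2]
        have a5 : Ce * (1 + Real.log (1 / lam)) ≤ Ce * L :=
          mul_le_mul_of_nonneg_left a4 (by linarith only [hCe])
        have a6 : 0 ≤ L := by linarith only [hl3, hl2, hl1]
        nlinarith only [a1, hlog6, hC, hl3, hl2, hl1, hCe])
    refine h2.trans ?_
    have h3 : (Ce + 1) * (1 + Real.log (1 / lam)) ≤
        (88 * (d : ℝ) + 48 + 8 * Ce) * (1 + Real.log (1 / lam)) := by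
      apply mul_le_mul_of_nonneg_right _ (by linarith only [hl1])
      linarith only [hCe]
    linarith only [h3]
  refine (measure_mono hsub).trans ((measure_union_le _ _).trans ?_)
  have hU1 : PP d (gl σ) (B1 ∪ {V | (RM V (box (0 : Site d) N) E).det = 0}) ≤
      ENNReal.ofReal p := by
    refine (measure_union_le _ _).trans ?_
    rw [pB2, add_zero]
    exact pB1
  have hU2 : PP d (gl σ) (⋃ u ∈ box b (n + R + 1), {V | T < |gr V (box (0 : Site d) N) E u x|}) ≤
      ENNReal.ofReal (Real.exp (-(Real.sqrt lam * R / 16))) := by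
    refine (measure_biUnion_finset_le _ _).trans ((Finset.sum_le_sum pB3).trans ?_)
    rw [Finset.sum_const, nsmul_eq_mul, card_box, ← ENNReal.ofReal_natCast,
      ← ENNReal.ofReal_mul (by positivity)]
    apply ENNReal.ofReal_le_ofReal
    have hc1 : (((2 * (n + R + 1) + 1) ^ d : ℕ) : ℝ) ≤ (6 * R : ℝ) ^ d := by
      push_cast
      apply pow_le_pow_left₀ (by positivity)
      linarith only [hnR', hR1]
    have hpos : 0 ≤ 6 * (1 / |σ|) / T := by positivity
    refine (mul_le_mul_of_nonneg_right hc1 hpos).trans ?_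
    have e1 : (6 * R : ℝ) ^ d * (6 * (1 / |σ|)) ≤ Real.exp (Real.sqrt lam * R / 16) := by
      have hq : (0 : ℝ) < (6 * R) ^ d * (6 * (1 / |σ|)) := by positivity
      have l1 : Real.log ((6 * R : ℝ) ^ d * (6 * (1 / |σ|))) =
          d * Real.log (6 * R) + (Real.log 6 + Real.log (1 / |σ|)) := by
        rw [Real.log_mul (by positivity) (by positivity), Real.log_pow]
        congr 1
        exact Real.log_mul (by norm_num) (by positivity)
      rw [← Real.log_le_iff_le_exp hq, l1]
      have h6 : Real.log 6 ≤ 2 := by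
        rw [Real.log_le_iff_le_exp (by norm_num)]
        have h1 := Real.exp_one_gt_d9
        have h2 : Real.exp 2 = Real.exp 1 * Real.exp 1 := by
          rw [← Real.exp_add]
          norm_num
        rw [h2]
        nlinarith only [h1]
      have a3 : Real.log (1 / |σ|) ≤ L := by rw [hL]; linarith only [hl3, hl1]
      have a6 : 0 ≤ L := by linarith only [hl3, hl2, hl1]
      nlinarith only [h6, hlog6, hC, hl3, hl2, hl1, hCe]
    have e2 : Real.exp (-(Real.sqrt lam * R / 16)) * T = Real.exp (Real.sqrt lam * R / 16) := by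
      rw [hT, ← Real.exp_add]
      congr 1
      ring
    rw [← mul_div_assoc, div_le_iff₀ hT0, e2]
    exact e1
  refine (add_le_add hU1 hU2).trans ?_
  rw [← ENNReal.ofReal_add hp.le (Real.exp_pos _).le]

end Pool.Agent.LE.H42Z
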