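import Pool.Agent.LE.StmtsZ
import Pool.Agent.Helper28_LEW.OSCB

/-!
# UPX: from conduction with probability to the Lyapunov exponent
-/

set_option autoImplicit false
set_option linter.unusedSectionVars false

open scoped Topology ENNReal BigOperators
open MeasureTheory Filter ProbabilityTheory

noncomputable section

namespace Pool.Agent.LE.H42Z

open Pool.Agent.Anderson Pool.Agent.Loc Pool.Agent.Mob Pool.Agent.Helper54.Bal Pool.Agent.LY
  Pool.Agent.Helper96.EXP

/-- the mean on the bad event, from the second moment of the positive part -/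
theorem mean_le {Ω : Type} [MeasurableSpace Ω] (P : Measure Ω) [IsProbabilityMeasure P]
    (D : Ω → ℝ) (hD : Measurable D) (hint : Integrable D P) {a M q : ℝ} (ha : 0 ≤ a) (hM : 0 < M)
    (hq : 0 ≤ q) (hMq : M * q ≤ 1)
    (h2 : ∫⁻ ω, (ENNReal.ofReal (D ω)) ^ 2 ∂P ≤ ENNReal.ofReal M)
    (hbad : P {ω | ¬ D ω ≤ a} ≤ ENNReal.ofReal q) : ∫ ω, D ω ∂P ≤ a + 1 := by
  set f : Ω → ℝ := fun ω => (max 0 (D ω)) ^ 2 with hf
  have hfm : Measurable f := (measurable_const.max hD).pow_const 2
  have hf0 : ∀ ω, 0 ≤ f ω := fun ω => sq_nonneg _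
  have hfe : ∀ ω, ENNReal.ofReal (f ω) = (ENNReal.ofReal (D ω)) ^ 2 := by
    intro ω
    rw [hf]
    simp only
    rw [ENNReal.ofReal_pow (le_max_left _ _)]
    rcases le_total 0 (D ω) with h | h
    · rw [max_eq_right h]
    · rw [max_eq_left h, ENNReal.ofReal_of_nonpos h, ENNReal.ofReal_zero]
  have hfl : ∫⁻ ω, ENNReal.ofReal (f ω) ∂P ≤ ENNReal.ofReal M := by
    simp_rw [hfe]
    exact h2
  have hfi : Integrable f P := by
    refine ⟨hfm.aestronglyMeasurable, ?_⟩
    rw [hasFiniteIntegral_iff_ofReal (Eventually.of_forall hf0)]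
    exact lt_of_le_of_lt hfl ENNReal.ofReal_lt_top
  have hfint : ∫ ω, f ω ∂P ≤ M := by
    rw [integral_eq_lintegral_of_nonneg_ae (Eventually.of_forall hf0) hfm.aestronglyMeasurable]
    exact ENNReal.toReal_le_of_le_ofReal hM.le hfl
  set S : Set Ω := {ω | ¬ D ω ≤ a} with hS
  have hSm : MeasurableSet S := (measurableSet_le hD measurable_const).compl
  have hSi : Integrable (S.indicator fun _ => (1 : ℝ)) P :=
    (integrable_const (1 : ℝ)).indicator hSm
  have hSint : ∫ ω, S.indicator (fun _ => (1 : ℝ)) ω ∂P ≤ q := by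
    rw [integral_indicator_const _ hSm, smul_eq_mul, mul_one]
    exact ENNReal.toReal_le_of_le_ofReal hq hbad
  have hpt : ∀ ω, D ω ≤ a + (f ω / (2 * M) + M / 2 * S.indicator (fun _ => (1 : ℝ)) ω) := by
    intro ω
    by_cases h : ω ∈ S
    · rw [Set.indicator_of_mem h]
      have h1 : D ω ≤ max 0 (D ω) := le_max_right _ _
      have h3 : max 0 (D ω) ≤ (max 0 (D ω)) ^ 2 / (2 * M) + M / 2 * 1 := by
        rw [div_add' _ _ _ (by positivity), le_div_iff₀ (by positivity)]
        nlinarith [sq_nonneg (max 0 (D ω) - M)]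
      rw [hf]
      simp only
      linarith
    · rw [Set.indicator_of_notMem h, mul_zero, add_zero]
      rw [hS, Set.mem_ofPred_eq, not_not] at h
      have := div_nonneg (hf0 ω) (by positivity : (0 : ℝ) ≤ 2 * M)
      linarith
  have i1 : Integrable (fun ω => f ω / (2 * M)) P := hfi.div_const _
  have i2 : Integrable (fun ω => M / 2 * S.indicator (fun _ => (1 : ℝ)) ω) P := hSi.const_mul _
  have i3 : Integrable (fun ω => f ω / (2 * M) + M / 2 * S.indicator (fun _ => (1 : ℝ)) ω) P :=
    i1.add i2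
  have i0 : Integrable (fun _ : Ω => a) P := integrable_const a
  have h4 : ∫ ω, D ω ∂P ≤ ∫ ω, (a + (f ω / (2 * M) + M / 2 * S.indicator (fun _ => (1 : ℝ)) ω)) ∂P :=
    integral_mono hint (i0.add i3) hpt
  have e1 := integral_add i0 i3
  have e2 := integral_add i1 i2
  have e3 : ∫ _ω : Ω, a ∂P = a := by simp
  have e4 : ∫ ω, f ω / (2 * M) ∂P = (∫ ω, f ω ∂P) / (2 * M) := integral_div _ _
  have e5 : ∫ ω, M / 2 * S.indicator (fun _ => (1 : ℝ)) ω ∂P =
      M / 2 * ∫ ω, S.indicator (fun _ => (1 : ℝ)) ω ∂P := integral_const_mul _ _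
  rw [e1, e2, e3, e4, e5] at h4
  have h6 : (∫ ω, f ω ∂P) / (2 * M) ≤ 1 / 2 := by
    rw [div_le_iff₀ (by positivity)]
    linarith
  have h7 : M / 2 * ∫ ω, S.indicator (fun _ => (1 : ℝ)) ω ∂P ≤ 1 / 2 := by
    have : M / 2 * ∫ ω, S.indicator (fun _ => (1 : ℝ)) ω ∂P ≤ M / 2 * q :=
      mul_le_mul_of_nonneg_left hSint (by positivity)
    linarith
  linarith

theorem sm_succ {d : ℕ} (k n : ℕ) (i : Fin d) :
    sm (k * n) (Pi.single i 1 : Site d) + Pi.single i (n : ℤ) =
      sm ((k + 1) * n) (Pi.single i 1 : Site d) := by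
  funext j
  simp only [sm, Pi.add_apply]
  by_cases hj : j = i
  · subst hj
    rw [Pi.single_eq_same, Pi.single_eq_same]
    push_cast
    ring
  · rw [Pi.single_eq_of_ne hj, Pi.single_eq_of_ne hj]
    ring

theorem sm_box {d : ℕ} (k n r N : ℕ) (i : Fin d) (h : k * n + r ≤ N) :
    box (sm (k * n) (Pi.single i 1 : Site d)) r ⊆ box 0 N := by
  intro z hz
  rw [mem_box, sd_le_iff] at hz ⊢
  intro j
  have h1 := hz j
  rw [Pi.zero_apply, zero_sub, abs_neg]
  have h2 : |sm (k * n) (Pi.single i 1 : Site d) j| ≤ (k * n : ℕ) := by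
    simp only [sm]
    by_cases hj : j = i
    · subst hj
      rw [Pi.single_eq_same, mul_one]
      exact le_of_eq (abs_of_nonneg (by positivity))
    · rw [Pi.single_eq_of_ne hj, mul_zero, abs_zero]
      positivity
  have h3 : |z j| ≤ |sm (k * n) (Pi.single i 1 : Site d) j - z j| +
      |sm (k * n) (Pi.single i 1 : Site d) j| := by
    have := abs_sub (sm (k * n) (Pi.single i 1 : Site d) j)
      (sm (k * n) (Pi.single i 1 : Site d) j - z j)
    rw [sub_sub_cancel] at this
    linarith
  have h4 : ((k * n + r : ℕ) : ℤ) ≤ N := by exact_mod_cast h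
  push_cast at h4 h2 ⊢
  linarith

theorem mem_self {d : ℕ} (x : Site d) (r : ℕ) : x ∈ box x r := by
  rw [mem_box, sd_le_iff]
  intro j
  rw [sub_self, abs_zero]
  positivity

theorem sd_single {d : ℕ} (b : Site d) (n : ℕ) (i : Fin d) :
    sd b (b + Pi.single i (n : ℤ)) ≤ n := by
  rw [sd_le_iff]
  intro j
  rw [Pi.add_apply, sub_add_cancel_left, abs_neg]
  by_cases hj : j = i
  · subst hj
    rw [Pi.single_eq_same]
    exact le_of_eq (abs_of_nonneg (by positivity))
  · rw [Pi.single_eq_of_ne hj, abs_zero]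
    positivity

theorem sd_zero_single {d : ℕ} (i : Fin d) : sd (0 : Site d) (Pi.single i 1 : Site d) = 1 := by
  apply le_antisymm
  · have := sd_single (0 : Site d) 1 i
    rwa [zero_add] at this
  · have h := sd_le_iff (x := (0 : Site d)) (y := (Pi.single i 1 : Site d)) |>.1 le_rfl i
    rw [Pi.zero_apply, Pi.single_eq_same, zero_sub, abs_neg, abs_one] at h
    exact_mod_cast h

theorem upx (mtr : MtrStmt) (upe : UpeStmt) : UpxStmt := by
  intro d hd
  obtain ⟨A, hA, hcst⟩ := H28W.cstB (d := d) hd (B := 2 * d + 2) (by positivity)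
  obtain ⟨C', hC', hc⟩ := hcst 2 (by norm_num)
  refine ⟨A, max 1 (4 * C'), hA, le_max_left _ _, ?_⟩
  intro n R σ E g a ε q i hσ hσ1 hE hn hε ha hq hCq hlog hbad hlya
  have hs0 : 0 < |σ| := abs_pos.2 hσ
  have hn1 : (1 : ℝ) ≤ n := by exact_mod_cast hn
  have hlσ : 0 ≤ Real.log (1 / |σ|) := by
    apply Real.log_nonneg
    rw [le_div_iff₀ hs0, one_mul]
    exact hσ1
  -- the mean
  have hmean : ∀ (N : ℕ) (b : Site d), box b (n + R + 1) ⊆ box 0 N →
      ∫ V, DL (box 0 N) E V b (b + Pi.single i (n : ℤ)) ∂(PP d (gl σ)) ≤ a * n + 1 := by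
    intro N b hb
    have hbN : b ∈ box (0 : Site d) N := hb (mem_self b _)
    have hxN : b + Pi.single i (n : ℤ) ∈ box (0 : Site d) N := by
      apply hb
      rw [mem_box]
      exact (sd_single b n i).trans (by omega)
    have hint := (mtr d N σ E b b (b + Pi.single i (n : ℤ)) hd hσ hσ1 hbN hbN hxN).1
    have hmeas : Measurable fun V : Site d → ℝ =>
        DL (box 0 N) E V b (b + Pi.single i (n : ℤ)) := by
      unfold DL
      exact (Real.measurable_log.comp (measurable_gr (box 0 N) E b _).abs).neg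
    set M : ℝ := C' * |σ| ^ (-A) * ((n : ℝ) + 1) ^ 2 with hM
    have hpow : 0 < |σ| ^ (-A) := Real.rpow_pos_of_pos hs0 _
    have hM0 : 0 < M := by positivity
    have h2 : ∫⁻ V, (ENNReal.ofReal (DL (box 0 N) E V b (b + Pi.single i (n : ℤ)))) ^ 2
        ∂(PP d (gl σ)) ≤ ENNReal.ofReal M := by
      refine (hc σ E N b _ hσ hσ1 hE hbN hxN).trans (ENNReal.ofReal_le_ofReal ?_)
      rw [hM]
      have h3 : (sd b (b + Pi.single i (n : ℤ)) : ℝ) ≤ n := by exact_mod_cast sd_single b n i
      gcongr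
    have hMq : M * q ≤ 1 := by
      refine le_trans ?_ hCq
      apply mul_le_mul_of_nonneg_right _ hq
      have h3 : ((n : ℝ) + 1) ^ 2 ≤ 4 * (n : ℝ) ^ 2 := by nlinarith
      calc M ≤ C' * |σ| ^ (-A) * (4 * (n : ℝ) ^ 2) := by rw [hM]; gcongr
        _ = (4 * C') * |σ| ^ (-A) * (n : ℝ) ^ 2 := by ring
        _ ≤ max 1 (4 * C') * |σ| ^ (-A) * (n : ℝ) ^ 2 := by
            gcongr
            exact le_max_right _ _
    exact mean_le (PP d (gl σ)) _ hmeas hint (by positivity) hM0 hq hMq h2 (hbad N b hb)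
  -- along the axis
  have hchain : ∀ (N k : ℕ), 1 ≤ k → k * n + (R + 1) ≤ N →
      ∫ V, DL (box 0 N) E V 0 (sm (k * n) (Pi.single i 1 : Site d)) ∂(PP d (gl σ)) ≤
        k * (a * n + 11 + Real.log (1 / |σ|)) := by
    intro N k hk
    induction k, hk using Nat.le_induction with
    | base =>
      intro hN
      have h1 := hmean N 0 (by
        have := sm_box 0 n (n + R + 1) N i (by omega)
        have h0 : sm (0 * n) (Pi.single i 1 : Site d) = 0 := by
          funext j
          simp [sm]
        rwa [h0] at this)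
      have h2 : (0 : Site d) + Pi.single i (n : ℤ) = sm (1 * n) (Pi.single i 1 : Site d) := by
        have := sm_succ 0 n i
        have h0 : sm (0 * n) (Pi.single i 1 : Site d) = 0 := by
          funext j
          simp [sm]
        rw [h0] at this
        exact this
      rw [h2] at h1
      push_cast
      linarith
    | succ k hk ih =>
      intro hN
      have hkn : k * n + (R + 1) ≤ N := by
        have : (k + 1) * n = k * n + n := by ring
        omega
      have hkn2 : k * n + (n + R + 1) ≤ N := by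
        have : (k + 1) * n = k * n + n := by ring
        omega
      have ih' := ih hkn
      have hb := sm_box k n (n + R + 1) N i hkn2
      have h1 := hmean N (sm (k * n) (Pi.single i 1 : Site d)) hb
      rw [sm_succ] at h1
      have hu : sm (k * n) (Pi.single i 1 : Site d) ∈ box (0 : Site d) N := hb (mem_self _ _)
      have hy : sm ((k + 1) * n) (Pi.single i 1 : Site d) ∈ box (0 : Site d) N := by
        apply sm_box (k + 1) n 0 N i (by omega)
        exact mem_self _ _
      have h2 := (mtr d N σ E 0 (sm (k * n) (Pi.single i 1 : Site d))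
        (sm ((k + 1) * n) (Pi.single i 1 : Site d)) hd hσ hσ1 (by
          rw [mem_box, sd_le_iff]
          intro j
          rw [sub_self, abs_zero]
          positivity) hu hy).2
      push_cast
      linarith
  refine upe d σ E g ((1 + ε) * a) (R + 1) 1 n (Pi.single i 1) hd hσ hlya le_rfl hn
    (sd_zero_single i) ?_
  intro m N hm hN
  have hN' : m * n + (R + 1) ≤ N := by
    have h1 : (m + (R + 1)) * (1 * n) = m * n + (R + 1) * n := by ring
    have h2 : (R + 1) * 1 ≤ (R + 1) * n := Nat.mul_le_mul_left _ hn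
    omega
  refine (hchain N m hm hN').trans ?_
  have hm0 : (0 : ℝ) ≤ m := by positivity
  apply mul_le_mul_of_nonneg_left _ hm0
  push_cast
  linarith

end Pool.Agent.LE.H42Z
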